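import Mathlib

namespace Pool.Agent.Results.MP_f73150_nt.CompleteSequences

/-- `A` is (the set of terms of) a complete sequence in the interval `(m, m + k]`:
its elements lie in `(m, m + k]`, are pairwise coprime, and every integer `n` of the interval
satisfies `gcd (n, a) > 1` for at least one term `a`. -/
def IsComplete (m k : ℕ) (A : Finset ℕ) : Prop :=
  A ⊆ Finset.Ioc m (m + k) ∧
  (∀ a ∈ A, ∀ b ∈ A, a ≠ b → Nat.gcd a b = 1) ∧
  (∀ n ∈ Finset.Ioc m (m + k), ∃ a ∈ A, 1 < Nat.gcd n a)

/-- `F m k` is the largest length of a complete sequence in `(m, m + k]`. -/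
noncomputable def F (m k : ℕ) : ℕ := sSup {l | ∃ A, IsComplete m k A ∧ A.card = l}

lemma card_le {m k : ℕ} {A : Finset ℕ} (h : A ⊆ Finset.Ioc m (m + k)) : A.card ≤ k := by
  have := Finset.card_le_card h
  simpa using this

lemma le_F {m k : ℕ} {A : Finset ℕ} (h : IsComplete m k A) : A.card ≤ F m k := by
  unfold F
  apply le_csSup
  · refine ⟨k, ?_⟩
    rintro l ⟨B, hB, rfl⟩
    exact card_le hB.1
  · exact ⟨A, h, rfl⟩

/-- A pairwise coprime subset of `(m, m + k]` with `m ≥ 1` extends to a complete sequence. -/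
lemma extend {m k : ℕ} (hm : 1 ≤ m) {A : Finset ℕ} (hA : A ⊆ Finset.Ioc m (m + k))
    (hc : ∀ a ∈ A, ∀ b ∈ A, a ≠ b → Nat.gcd a b = 1) :
    ∃ B, A ⊆ B ∧ IsComplete m k B := by
  classical
  let S : Finset (Finset ℕ) := (Finset.Ioc m (m + k)).powerset.filter
    (fun B => A ⊆ B ∧ ∀ a ∈ B, ∀ b ∈ B, a ≠ b → Nat.gcd a b = 1)
  have hAS : A ∈ S := by
    simp only [S, Finset.mem_filter, Finset.mem_powerset]
    exact ⟨hA, Finset.Subset.refl _, hc⟩
  obtain ⟨B, hBS, hmax⟩ := Finset.exists_max_image S Finset.card ⟨A, hAS⟩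
  simp only [S, Finset.mem_filter, Finset.mem_powerset] at hBS
  obtain ⟨hB1, hB2, hB3⟩ := hBS
  refine ⟨B, hB2, hB1, hB3, ?_⟩
  intro n hn
  by_contra hcon
  push Not at hcon
  have hn' := Finset.mem_Ioc.1 hn
  have hcop : ∀ b ∈ B, Nat.gcd n b = 1 := by
    intro b hb
    have h1 := hcon b hb
    have h2 : 0 < Nat.gcd n b := Nat.gcd_pos_of_pos_left _ (by omega)
    omega
  have hnB : n ∉ B := by
    intro hnB
    have := hcop n hnB
    rw [Nat.gcd_self] at this
    omega
  have hins : insert n B ∈ S := by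
    simp only [S, Finset.mem_filter, Finset.mem_powerset]
    refine ⟨?_, ?_, ?_⟩
    · intro x hx
      rcases Finset.mem_insert.1 hx with rfl | hx
      · exact hn
      · exact hB1 hx
    · exact hB2.trans (Finset.subset_insert _ _)
    · intro a ha b hb hab
      rcases Finset.mem_insert.1 ha with ha' | ha'
      · rcases Finset.mem_insert.1 hb with hb' | hb'
        · exact absurd (ha'.trans hb'.symm) hab
        · rw [ha']; exact hcop b hb'
      · rcases Finset.mem_insert.1 hb with hb' | hb'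
        · rw [hb', Nat.gcd_comm]; exact hcop a ha'
        · exact hB3 a ha' b hb' hab
  have h3 := hmax _ hins
  rw [Finset.card_insert_of_notMem hnB] at h3
  omega

lemma le_F' {m k : ℕ} (hm : 1 ≤ m) {A : Finset ℕ} (hA : A ⊆ Finset.Ioc m (m + k))
    (hc : ∀ a ∈ A, ∀ b ∈ A, a ≠ b → Nat.gcd a b = 1) : A.card ≤ F m k := by
  obtain ⟨B, hAB, hB⟩ := extend hm hA hc
  exact (Finset.card_le_card hAB).trans (le_F hB)

/-- The family: `k! - 1`, `k! + 1` and `k! + p` for the primes `p ≤ k - 2`. -/
lemma family (k : ℕ) (hk : 9 ≤ k) (h1 : ¬ k.Prime) (h2 : ¬ (k - 1).Prime) :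
    ∃ m, Nat.primeCounting k + 2 ≤ F m k := by
  classical
  have hf : k ≤ k.factorial := Nat.self_le_factorial k
  set K := k.factorial with hK
  let P : Finset ℕ := (Finset.range (k + 1)).filter Nat.Prime
  let A : Finset ℕ := insert (K - 1) (insert (K + 1) (P.image (fun p => K + p)))
  have hP : ∀ p ∈ P, p.Prime ∧ p + 2 ≤ k := by
    intro p hp
    simp only [P, Finset.mem_filter, Finset.mem_range] at hp
    refine ⟨hp.2, ?_⟩
    have ha : p ≠ k := by rintro rfl; exact h1 hp.2
    have hb : p ≠ k - 1 := by rintro rfl; exact h2 hp.2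
    omega
  have hmem : ∀ x ∈ A, x = K - 1 ∨ x = K + 1 ∨ ∃ p ∈ P, x = K + p := by
    intro x hx
    simp only [A, Finset.mem_insert, Finset.mem_image] at hx
    rcases hx with hx | hx | ⟨p, hp, hx⟩
    · exact Or.inl hx
    · exact Or.inr (Or.inl hx)
    · exact Or.inr (Or.inr ⟨p, hp, hx.symm⟩)
  have hcardP : P.card = Nat.primeCounting k := by
    rw [Nat.primeCounting, Nat.primeCounting', Nat.count_eq_card_filter_range]
  have hcard : A.card = Nat.primeCounting k + 2 := by
    have e1 : (P.image (fun p => K + p)).card = P.card :=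
      Finset.card_image_of_injective _ (fun a b h => by simpa using h)
    have e2 : K + 1 ∉ P.image (fun p => K + p) := by
      intro h
      simp only [Finset.mem_image] at h
      obtain ⟨p, hp, h⟩ := h
      have := (hP p hp).1.two_le
      omega
    have e3 : K - 1 ∉ insert (K + 1) (P.image (fun p => K + p)) := by
      intro h
      simp only [Finset.mem_insert, Finset.mem_image] at h
      rcases h with h | ⟨p, hp, h⟩ <;> omega
    simp only [A]
    rw [Finset.card_insert_of_notMem e3, Finset.card_insert_of_notMem e2, e1, hcardP]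
  have hsub : A ⊆ Finset.Ioc (K - 2) (K - 2 + k) := by
    intro x hx
    rw [Finset.mem_Ioc]
    rcases hmem x hx with h | h | ⟨p, hp, h⟩
    · omega
    · omega
    · have := (hP p hp).2
      omega
  have key : ∀ q, q.Prime → q ≤ k → ∀ x ∈ A, q ∣ x → x = K + q := by
    intro q hq hqk x hx hdx
    have hqK : q ∣ K := (hq.dvd_factorial).2 hqk
    rcases hmem x hx with h | h | ⟨p, hp, h⟩
    · exfalso
      have h3 : q ∣ K - (K - 1) := Nat.dvd_sub hqK (h ▸ hdx)
      have h4 : K - (K - 1) = 1 := by omega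
      rw [h4] at h3
      exact hq.one_lt.ne' (Nat.dvd_one.1 h3)
    · exfalso
      rw [h] at hdx
      have h3 : q ∣ 1 := (Nat.dvd_add_right hqK).1 hdx
      exact hq.one_lt.ne' (Nat.dvd_one.1 h3)
    · rw [h] at hdx
      have h3 : q ∣ p := (Nat.dvd_add_right hqK).1 hdx
      have h4 := (Nat.prime_dvd_prime_iff_eq hq (hP p hp).1).1 h3
      rw [h, h4]
  have hcop : ∀ a ∈ A, ∀ b ∈ A, a ≠ b → Nat.gcd a b = 1 := by
    have main : ∀ a ∈ A, ∀ b ∈ A, a < b → Nat.gcd a b = 1 := by
      intro a ha b hb hab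
      by_contra hne
      obtain ⟨q, hq, hqd⟩ := Nat.exists_prime_and_dvd hne
      have hqa : q ∣ a := hqd.trans (Nat.gcd_dvd_left _ _)
      have hqb : q ∣ b := hqd.trans (Nat.gcd_dvd_right _ _)
      have hqs : q ∣ b - a := Nat.dvd_sub hqb hqa
      have hle : q ≤ b - a := Nat.le_of_dvd (by omega) hqs
      have h3 := Finset.mem_Ioc.1 (hsub ha)
      have h4 := Finset.mem_Ioc.1 (hsub hb)
      have hqk : q ≤ k := by omega
      have h5 := key q hq hqk a ha hqa
      have h6 := key q hq hqk b hb hqb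
      omega
    intro a ha b hb hab
    rcases Nat.lt_or_ge a b with h | h
    · exact main a ha b hb h
    · rw [Nat.gcd_comm]
      exact main b hb a ha (by omega)
  refine ⟨K - 2, ?_⟩
  rw [← hcard]
  exact le_F' (by omega) hsub hcop

lemma infinitely_many (N : ℕ) : ∃ k, N ≤ k ∧ 9 ≤ k ∧ ¬ k.Prime ∧ ¬ (k - 1).Prime := by
  refine ⟨(2 * (N + 2)) * (2 * (N + 2)), by nlinarith, by nlinarith, ?_, ?_⟩
  · exact Nat.not_prime_mul (by omega) (by omega)
  · have : (2 * (N + 2)) * (2 * (N + 2)) - 1 = (2 * N + 3) * (2 * N + 5) := by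
      have : (2 * (N + 2)) * (2 * (N + 2)) = (2 * N + 3) * (2 * N + 5) + 1 := by ring
      omega
    rw [this]
    exact Nat.not_prime_mul (by omega) (by omega)

/-- offsets of the example with `k = 100` -/
def offs : Finset ℕ := {2, 4, 8, 10, 12, 14, 16, 20, 22, 28, 32, 35, 38, 40, 44, 50, 52, 58, 64,
  68, 70, 74, 80, 82, 88, 92, 94, 98, 100}

lemma hundred : ∃ m, Nat.primeCounting 100 + 4 ≤ F m 100 := by
  have hpi : Nat.primeCounting 100 = 25 := by decide +kernel
  refine ⟨512785304822282561338652014677429399, ?_⟩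
  have hA : offs.image (fun j => 512785304822282561338652014677429399 + j) ⊆
      Finset.Ioc 512785304822282561338652014677429399
        (512785304822282561338652014677429399 + 100) := by
    intro x hx
    simp only [Finset.mem_image] at hx
    obtain ⟨j, hj, rfl⟩ := hx
    have hj' : 0 < j ∧ j ≤ 100 := by
      have : ∀ j ∈ offs, 0 < j ∧ j ≤ 100 := by decide
      exact this j hj
    rw [Finset.mem_Ioc]
    omega
  have hc : ∀ a ∈ offs.image (fun j => 512785304822282561338652014677429399 + j),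
      ∀ b ∈ offs.image (fun j => 512785304822282561338652014677429399 + j),
      a ≠ b → Nat.gcd a b = 1 := by
    intro a ha b hb hab
    simp only [Finset.mem_image] at ha hb
    obtain ⟨i, hi, rfl⟩ := ha
    obtain ⟨j, hj, rfl⟩ := hb
    have : ∀ i ∈ offs, ∀ j ∈ offs, i ≠ j →
        Nat.gcd (512785304822282561338652014677429399 + i)
          (512785304822282561338652014677429399 + j) = 1 := by decide +kernel
    exact this i hi j hj (fun h => hab (by rw [h]))
  have hcard : (offs.image (fun j => 512785304822282561338652014677429399 + j)).card = 29 := by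
    rw [Finset.card_image_of_injective _ (fun a b h => by simpa using h)]
    decide
  have := le_F' (by norm_num) hA hc
  rw [hcard] at this
  rw [hpi]
  exact this

lemma nine : IsComplete 10 9 {11, 13, 15, 16, 17, 19} := by
  unfold IsComplete
  decide

lemma nine_upper : F 10 9 = Nat.primeCounting 9 + 2 := by
  have hpi : Nat.primeCounting 9 = 4 := by decide +kernel
  rw [hpi]
  apply le_antisymm
  · unfold F
    apply csSup_le
    · exact ⟨_, _, nine, rfl⟩
    · rintro l ⟨B, hB, rfl⟩
      have h : ∀ B ∈ (Finset.Ioc 10 19).powerset,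
          (∀ a ∈ B, ∀ b ∈ B, a ≠ b → Nat.gcd a b = 1) → B.card ≤ 6 := by
        decide +kernel
      exact h B (Finset.mem_powerset.2 hB.1) hB.2.1
  · have := le_F nine
    exact this

theorem result :
    (IsComplete 10 9 {11, 13, 15, 16, 17, 19} ∧ F 10 9 = Nat.primeCounting 9 + 2) ∧
    (∀ k, 9 ≤ k → ¬ k.Prime → ¬ (k - 1).Prime → ∃ m, Nat.primeCounting k + 2 ≤ F m k) ∧
    (∀ N, ∃ k, N ≤ k ∧ ∃ m, Nat.primeCounting k + 2 ≤ F m k) ∧
    (∃ m, Nat.primeCounting 100 + 4 ≤ F m 100) ∧
    ¬ (∀ k, 1 ≤ k → IsGreatest (Set.range fun m => F m k) (Nat.primeCounting k + 1)) := by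
  refine ⟨⟨nine, nine_upper⟩, family, ?_, hundred, ?_⟩
  · intro N
    obtain ⟨k, hN, h9, h1, h2⟩ := infinitely_many N
    exact ⟨k, hN, family k h9 h1 h2⟩
  · intro h
    have h9 := (h 9 (by norm_num)).2 ⟨10, rfl⟩
    simp only [nine_upper] at h9
    omega

end Pool.Agent.Results.MP_f73150_nt.CompleteSequences
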